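import Pool.Agent.Y294.TB.Stm

/-!
TB-CORE2 (project TB of helper294): two chains of noncircular algebraic mirrors and one arbitrary
reflection between them.
-/

set_option autoImplicit false

open Set MvPolynomial H450Al
open Pool.Agent.TH746 Pool.Agent.TH746.AL

namespace Pool.Agent.Y319.TB

open Pool.Agent.Y294.TB

theorem alg_mem {K Ω : Type*} [Field K] [Field Ω] [Algebra K Ω] (B : ValuationSubring Ω)
    (h : ∀ a : K, algebraMap K Ω a ∈ B) (y : Ω) (hy : IsAlgebraic K y) : y ∈ B := by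
  obtain ⟨p, hp, hpy⟩ := hy.isIntegral
  set φ : K →+* B := (algebraMap K Ω).codRestrict B.toSubring h
  have hint : IsIntegral B y := by
    refine ⟨p.map φ, hp.map φ, ?_⟩
    rw [Polynomial.eval₂_map]
    have : (algebraMap B Ω).comp φ = algebraMap K Ω := RingHom.ext fun a => rfl
    rw [this]; exact hpy
  obtain ⟨z, hz⟩ := IsIntegrallyClosed.isIntegral_iff.1 hint
  rw [← hz]; exact z.2

theorem resTr_iff {K Ω : Type*} [Field K] [Field Ω] [Algebra K Ω] (B : ValuationSubring Ω)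
    [Algebra K B] [IsScalarTower K B Ω] (y : B) :
    ResTr K B (y : Ω) ↔ Transcendental K (IsLocalRing.residue B y) := by
  have h1 : ∀ f : Polynomial K, Polynomial.aeval (y : Ω) f ∈ B.nonunits ↔
      Polynomial.aeval (IsLocalRing.residue B y) f = 0 := by
    intro f
    have e1 : Polynomial.aeval (y : Ω) f = ((Polynomial.aeval y f : B) : Ω) :=
      Polynomial.aeval_algebraMap_apply Ω y f
    have e2 : Polynomial.aeval (IsLocalRing.residue B y) f =
        IsLocalRing.residue B (Polynomial.aeval y f) :=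
      Polynomial.aeval_algebraMap_apply (IsLocalRing.ResidueField B) y f
    rw [e1, e2, res_eq_zero_iff]
  unfold ResTr Transcendental IsAlgebraic
  push Not
  exact forall_congr' fun f => forall_congr' fun _ => not_congr (h1 f)

theorem transp (M : Fin 2 → Fin 2 → ℝ)
    (hM : ∀ v : Fin 2 → ℝ, ∑ i, (∑ l, M i l * v l) ^ 2 = ∑ i, v i ^ 2)
    (v : Fin 2 → ℝ) (i : Fin 2) : v i = ∑ l, M l i * ∑ m, M l m * v m := by
  have h1 := hM ![1, 0]
  have h2 := hM ![0, 1]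
  have h3 := hM ![1, 1]
  simp only [Fin.sum_univ_two, Matrix.cons_val_zero, Matrix.cons_val_one] at h1 h2 h3 ⊢
  fin_cases i
  · simp only [Fin.zero_eta]
    linear_combination (-v 0) * h1 - (v 1) / 2 * (h3 - h1 - h2)
  · simp only [Fin.mk_one]
    linear_combination (-v 1) * h2 - (v 0) / 2 * (h3 - h1 - h2)

theorem resTr_back {k : Type} [Field k] [Algebra k ℝ] (K : IntermediateField k ℝ)
    (B : ValuationSubring ℝ) (hK : ∀ a ∈ K, a ∈ B) (M : Fin 2 → Fin 2 → ℝ)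
    (hMK : ∀ i l, M i l ∈ K)
    (hM : ∀ v : Fin 2 → ℝ, ∑ i, (∑ l, M i l * v l) ^ 2 = ∑ i, v i ^ 2)
    (v : Fin 2 → ℝ) (hv : ∀ i, v i ∈ B) (h : ∃ i, ResTr K B (v i)) :
    ∃ l, ResTr K B (-∑ m, M l m * v m) := by
  by_contra hcon
  push Not at hcon
  obtain ⟨i, hi⟩ := h
  let _ := constAlgebra K B (fun a : K => hK a a.2)
  have := constTower K B (fun a : K => hK a a.2)
  have hE : ∀ l, -∑ m, M l m * v m ∈ B := fun l =>
    neg_mem (sum_mem fun m _ => mul_mem (hK _ (hMK l m)) (hv m))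
  obtain ⟨E, hEd⟩ : ∃ E : Fin 2 → B, ∀ l, (E l : ℝ) = -∑ m, M l m * v m :=
    ⟨fun l => ⟨_, hE l⟩, fun l => rfl⟩
  have halg : ∀ l, IsAlgebraic K (IsLocalRing.residue B (E l)) := by
    intro l
    have := hcon l
    rw [← hEd l, resTr_iff] at this
    exact not_not.1 this
  have h1 : (⟨v i, hv i⟩ : B) = ∑ l, -(algebraMap K B ⟨M l i, hMK l i⟩ * E l) := by
    apply Subtype.ext
    have e1 : ((∑ l, -(algebraMap K B ⟨M l i, hMK l i⟩ * E l) : B) : ℝ) =
        ∑ l, -(M l i * (E l : ℝ)) := by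
      rw [Fin.sum_univ_two, Fin.sum_univ_two]
      rfl
    rw [e1]
    simp_rw [hEd]
    rw [transp M hM v i]
    refine Finset.sum_congr rfl fun l _ => ?_
    simp only [Fin.sum_univ_two]
    ring
  have h2 := (resTr_iff (K := K) B ⟨v i, hv i⟩).1 hi
  apply h2
  rw [h1, map_sum, Fin.sum_univ_two]
  have h3 : ∀ l, IsAlgebraic K (IsLocalRing.residue B (-(algebraMap K B ⟨M l i, hMK l i⟩ * E l))) := by
    intro l
    rw [map_neg, map_mul]
    refine (IsAlgebraic.mul ?_ (halg l)).neg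
    exact isAlgebraic_algebraMap (A := IsLocalRing.ResidueField B) (⟨M l i, hMK l i⟩ : K)
  exact (h3 0).add (h3 1)

/-- extension of a valuation ring of the reals to the complex numbers -/
theorem exists_C (B : ValuationSubring ℝ) : ∃ C : ValuationSubring ℂ,
    (∀ r : ℝ, (r : ℂ) ∈ C ↔ r ∈ B) ∧ ∀ r : ℝ, (r : ℂ) ∈ C.nonunits ↔ r ∈ B.nonunits := by
  set f : B →+* ℂ := Complex.ofRealHom.comp B.subtype with hf
  have hinj : Function.Injective f.rangeRestrict := by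
    intro a b hab
    have h1 : f a = f b := congrArg Subtype.val hab
    have h2 : ((a : ℝ) : ℂ) = ((b : ℝ) : ℂ) := h1
    exact Subtype.ext (Complex.ofReal_injective h2)
  set ψ : B ≃+* f.range := RingEquiv.ofBijective f.rangeRestrict ⟨hinj, f.rangeRestrict_surjective⟩
    with hψ
  set I : Ideal f.range := (IsLocalRing.maximalIdeal B).comap (ψ.symm : f.range →+* B) with hI
  have hItop : I ≠ ⊤ := Ideal.comap_ne_top _ (IsLocalRing.maximalIdeal.isMaximal B).ne_top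
  obtain ⟨C, hAC, hIC⟩ := Ideal.image_subset_nonunits_valuationSubring I hItop
  have a1 : ∀ r ∈ B, (r : ℂ) ∈ C := fun r hr => hAC ⟨⟨r, hr⟩, rfl⟩
  have a2 : ∀ r ∈ B.nonunits, (r : ℂ) ∈ C.nonunits := by
    intro r hr
    rw [ValuationSubring.mem_nonunits_iff_exists_mem_maximalIdeal] at hr
    obtain ⟨hB, hr⟩ := hr
    apply hIC
    refine ⟨ψ ⟨r, hB⟩, ?_, rfl⟩
    change ψ.symm (ψ ⟨r, hB⟩) ∈ IsLocalRing.maximalIdeal B
    rw [RingEquiv.symm_apply_apply]
    exact hr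
  have key : ∀ r : ℝ, r ∉ B → r⁻¹ ∈ B.nonunits := by
    intro r hr
    rw [← ValuationSubring.valuation_le_one_iff, not_le] at hr
    rw [ValuationSubring.mem_nonunits_iff, map_inv₀]
    exact inv_lt_one_of_one_lt₀ hr
  have b1 : ∀ r : ℝ, (r : ℂ) ∈ C → r ∈ B := by
    intro r hr
    by_contra hcon
    have h1 := a2 _ (key r hcon)
    have hr0 : r ≠ 0 := by rintro rfl; exact hcon (zero_mem B)
    rw [ValuationSubring.mem_nonunits_iff] at h1
    rw [← ValuationSubring.valuation_le_one_iff] at hr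
    have h2 : C.valuation (r : ℂ) * C.valuation ((r⁻¹ : ℝ) : ℂ) = 1 := by
      rw [← map_mul, Complex.ofReal_inv, mul_inv_cancel₀ (by exact_mod_cast hr0), map_one]
    have h3 := mul_lt_one_of_nonneg_of_lt_one_right hr zero_le h1
    exact absurd h2 h3.ne
  refine ⟨C, fun r => ⟨b1 r, a1 r⟩, fun r => ⟨fun hr => ?_, a2 r⟩⟩
  by_contra hcon
  have hrC : (r : ℂ) ∈ C := C.nonunits_subset hr
  have hrB := b1 r hrC
  have h1 : r⁻¹ ∈ B := by
    rw [← ValuationSubring.valuation_le_one_iff, map_inv₀]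
    rw [ValuationSubring.mem_nonunits_iff, not_lt] at hcon
    exact inv_le_one_of_one_le₀ hcon
  have hr0 : r ≠ 0 := by
    rintro rfl
    apply hcon
    rw [ValuationSubring.mem_nonunits_iff, map_zero]
    exact zero_lt_one
  have h2 := a1 _ h1
  rw [ValuationSubring.mem_nonunits_iff] at hr
  rw [← ValuationSubring.valuation_le_one_iff] at h2
  have h3 : C.valuation ((r⁻¹ : ℝ) : ℂ) * C.valuation (r : ℂ) = 1 := by
    rw [← map_mul, Complex.ofReal_inv, inv_mul_cancel₀ (by exact_mod_cast hr0), map_one]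
  exact absurd h3 (mul_lt_one_of_nonneg_of_lt_one_right h2 zero_le hr).ne

theorem val_iota (C : ValuationSubring ℂ) (ι : ℂ) (h : ι ^ 2 = -1) : C.valuation ι = 1 := by
  have h1 : C.valuation ι ^ 2 = 1 := by
    rw [← map_pow, h, Valuation.map_neg, map_one]
  exact (pow_eq_one_iff_of_nonneg zero_le two_ne_zero).1 h1

theorem sum_nonunits (C : ValuationSubring ℂ) {a b : ℂ} (ha : a ∈ C.nonunits)
    (hb : b ∈ C.nonunits) : a + b ∈ C.nonunits := by
  rw [ValuationSubring.mem_nonunits_iff] at *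
  exact lt_of_le_of_lt (Valuation.map_add _ _ _) (max_lt ha hb)

theorem mul_nonunits (C : ValuationSubring ℂ) {a b : ℂ} (ha : C.valuation a ≤ 1)
    (hb : b ∈ C.nonunits) : a * b ∈ C.nonunits := by
  rw [ValuationSubring.mem_nonunits_iff] at *
  rw [map_mul]
  exact mul_lt_one_of_nonneg_of_lt_one_right ha zero_le hb

theorem one_unit (B : ValuationSubring ℝ) (C : ValuationSubring ℂ)
    (hC : ∀ r : ℝ, (r : ℂ) ∈ C ↔ r ∈ B) (hCn : ∀ r : ℝ, (r : ℂ) ∈ C.nonunits ↔ r ∈ B.nonunits)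
    (h2 : (2 : ℝ)⁻¹ ∈ B) (ι : ℂ) (hι : ι ^ 2 = -1) (e : Fin 2 → ℝ)
    (he : ∃ l, e l ∉ B.nonunits) :
    (e 0 : ℂ) + ι * e 1 ∉ C.nonunits ∨ (e 0 : ℂ) - ι * e 1 ∉ C.nonunits := by
  by_contra hcon
  push Not at hcon
  obtain ⟨hp, hm⟩ := hcon
  have hv2 : C.valuation (2 : ℂ)⁻¹ ≤ 1 := by
    rw [ValuationSubring.valuation_le_one_iff]
    have := (hC (2 : ℝ)⁻¹).2 h2
    rwa [Complex.ofReal_inv, Complex.ofReal_ofNat] at this
  have hvι := val_iota C ι hι
  have hι0 : ι ≠ 0 := by rintro rfl; norm_num at hι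
  have h0 : ((e 0 : ℝ) : ℂ) ∈ C.nonunits := by
    have := mul_nonunits C hv2 (sum_nonunits C hp hm)
    have e1 : (2 : ℂ)⁻¹ * ((e 0 : ℂ) + ι * e 1 + ((e 0 : ℂ) - ι * e 1)) = e 0 := by ring
    rwa [e1] at this
  have h1 : ((e 1 : ℝ) : ℂ) ∈ C.nonunits := by
    have hneg : (-1 : ℂ) * ((e 0 : ℂ) - ι * e 1) ∈ C.nonunits :=
      mul_nonunits C (by rw [Valuation.map_neg, map_one]) hm
    have h3 : C.valuation ((2 : ℂ)⁻¹ * ι⁻¹) ≤ 1 := by
      rw [map_mul, map_inv₀ C.valuation ι, hvι, inv_one, mul_one]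
      exact hv2
    have := mul_nonunits C h3 (sum_nonunits C hp hneg)
    have e1 : (2 : ℂ)⁻¹ * ι⁻¹ * ((e 0 : ℂ) + ι * e 1 + (-1) * ((e 0 : ℂ) - ι * e 1)) = e 1 := by
      field_simp
      ring
    rwa [e1] at this
  obtain ⟨l, hl⟩ := he
  fin_cases l
  · exact hl ((hCn _).1 h0)
  · exact hl ((hCn _).1 h1)

theorem choose_iota (C : ValuationSubring ℂ) (B : ValuationSubring ℝ)
    (hCn : ∀ r : ℝ, (r : ℂ) ∈ C.nonunits ↔ r ∈ B.nonunits) (e : Fin 2 → ℝ)
    (hs : ∑ l, e l ^ 2 ∈ B.nonunits) : ∃ ι : ℂ, ι ^ 2 = -1 ∧ (e 0 : ℂ) + ι * e 1 ∈ C.nonunits := by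
  have h1 := (hCn _).2 hs
  have h2 : (((∑ l, e l ^ 2 : ℝ)) : ℂ) = ((e 0 : ℂ) + Complex.I * e 1) * ((e 0 : ℂ) + (-Complex.I) * e 1) := by
    rw [Fin.sum_univ_two]
    push_cast
    have := Complex.I_sq
    linear_combination ((e 1 : ℂ) ^ 2) * this
  rw [h2] at h1
  by_contra hcon
  push Not at hcon
  have h3 := hcon Complex.I Complex.I_sq
  have h4 := hcon (-Complex.I) (by rw [neg_sq]; exact Complex.I_sq)
  rw [ValuationSubring.mem_nonunits_iff, not_lt] at h3 h4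
  rw [ValuationSubring.mem_nonunits_iff, map_mul] at h1
  exact absurd (one_le_mul h3 h4) (not_le.2 h1)

/-- the coordinates of a point of rank at most one are algebraic over any transcendental
combination -/
theorem mem_cl_of_rank {k : Type*} [Field k] [Algebra k ℂ] (b : Fin 2 → ℂ)
    (P : MvPolynomial (Fin 2) k) (hP : P ≠ 0) (h : aeval b P = 0) (w : ℂ)
    (hw : w ∈ cl k (range b)) (hw0 : w ∉ cl k (∅ : Set ℂ)) : range b ⊆ cl k {w} := by
  have h1 : rk k (range b) ≤ (1 : ℕ) := rk_lt_of_relation (n := 1) k b P hP h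
  intro a ha
  by_contra hcon
  have h2 := rk_insert_eq k {w} a hcon
  have h3 : rk k ({w} : Set ℂ) = rk k (∅ : Set ℂ) + 1 := by
    have := rk_insert_eq k ∅ w hw0
    rwa [insert_empty_eq] at this
  have h4 : rk k (insert a {w}) ≤ rk k (range b) := by
    apply rk_mono
    intro c hc
    rcases hc with rfl | hc
    · exact subset_cl k _ ha
    · rw [mem_singleton_iff] at hc
      rw [hc]; exact hw
  have h5 := h4.trans h1
  rw [h2, h3] at h5
  have h6 : (1 : ℕ∞) + 1 ≤ (1 : ℕ) := le_trans (by gcongr; exact le_add_self) h5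
  norm_num at h6


theorem iota_mem_cl {k : Type*} [Field k] [Algebra k ℂ] (ι : ℂ) (hι : ι ^ 2 = -1) (S : Set ℂ) :
    ι ∈ cl k S := by
  rw [mem_cl]
  refine ⟨Polynomial.X ^ 2 + Polynomial.C 1, (Polynomial.monic_X_pow_add_C _ two_ne_zero).ne_zero, ?_⟩
  simp [hι]

theorem core2 (h1 : S_CHAIN) (h2 : S_LEN) (h3 : S_PLACE) (h4 : S_DELTA) : S_CORE2 := by
  intro k _ _ K hKc n j P Φ q u t M hj1 hjn hq0 hqn hr0 hrn hrK hu0 hMK hM huM hP hlead hΦ hgrad
    hqs hus htr hsum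
  obtain ⟨a, rfl⟩ : ∃ a, j = a + 1 := ⟨j - 1, by omega⟩
  obtain ⟨b, rfl⟩ : ∃ b, n = a + 1 + 1 + b := ⟨n - (a + 1 + 1), by omega⟩
  rw [Nat.add_sub_cancel] at htr
  obtain ⟨lam, B, hlam, hKB, huB, hlamn, hres⟩ := h3 k K hKc (u 0) hrK hu0
  have hsq : ∀ i, 1 ≤ i → i < a + 1 + 1 + b → ∑ l, grad (Φ i) (q i) l ^ 2 ≠ 0 :=
    fun i hi1 hi => sq_sum_ne _ (hgrad i hi1 hi)
  have huni : ∀ i < a + 1 + 1 + b, ∑ l, u i l ^ 2 = 1 := by
    intro i
    induction i with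
    | zero => intro _; exact hu0
    | succ i ih =>
      intro hi
      rw [hus i hi, refl_sq _ _ (hsq (i + 1) (by omega) hi)]
      exact ih (by omega)
  obtain ⟨e, he⟩ : ∃ e : ℕ → Fin 2 → ℝ, e = fun i l => lam * u i l := ⟨_, rfl⟩
  obtain ⟨s, hs⟩ : ∃ s : ℕ → ℝ, s = fun i => t i / lam := ⟨_, rfl⟩
  have hes : ∀ i < a + 1 + 1 + b, ∑ l, e i l ^ 2 = lam ^ 2 := by
    intro i hi
    rw [he]
    simp only [mul_pow]
    rw [← Finset.mul_sum, huni i hi, mul_one]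
  have heq : ∀ i < a + 1 + 1 + b, q (i + 1) = fun l => q i l + s i * e i l := by
    intro i hi
    rw [hqs i hi, he, hs]
    funext l
    field_simp
  have her : ∀ i, i + 1 < a + 1 + 1 + b → e (i + 1) = refl (grad (Φ (i + 1)) (q (i + 1))) (e i) := by
    intro i hi
    have := refl_smul_vec (grad (Φ (i + 1)) (q (i + 1))) (u i) lam
    rw [he]
    change (fun l => lam * u (i + 1) l) = refl _ (fun l => lam * u i l)
    rw [this, hus i hi]
  have heB : ∀ l, e 0 l ∈ B := by intro l; rw [he]; exact huB l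
  have hresE : ∃ l, ResTr K B (e 0 l) := by rw [he]; exact hres
  -- the forward chain
  obtain ⟨F1, F2, F3, F4, F5, F6⟩ := h1 k K B hKB a P Φ q e s hr0 hq0 heB
    (by rw [hes 0 (by omega)]; exact hlamn) hresE
    (fun i hi1 hi => hP i hi1 (by omega) (by omega))
    (fun i hi1 hi => hlead i hi1 (by omega) (by omega))
    (fun i hi1 hi => hgrad i hi1 (by omega))
    (fun i hi => heq i (by omega)) (fun i hi => her i (by omega))
  -- the backward chain
  have heM : e (a + 1 + b) = fun i => ∑ l, M i l * e 0 l := by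
    have h5 : a + 1 + 1 + b - 1 = a + 1 + b := by omega
    rw [h5] at huM
    rw [he]
    change (fun l => lam * u (a + 1 + b) l) = fun i => ∑ l, M i l * (lam * u 0 l)
    rw [huM]
    funext i
    rw [Finset.mul_sum]
    exact Finset.sum_congr rfl fun l _ => by ring
  have hback0 : ∃ l, ResTr K B (-e (a + 1 + b) l) := by
    rw [heM]
    exact resTr_back K B hKB M hMK hM (e 0) heB hresE
  obtain ⟨G1, G2, G3, G4, G5, -⟩ := h1 k K B hKB b (fun i => P (a + 1 + 1 + b - i))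
    (fun i => Φ (a + 1 + 1 + b - i)) (fun i => q (a + 1 + 1 + b - i))
    (fun i l => -e (a + 1 + b - i) l) (fun i => s (a + 1 + b - i)) hrn hqn
    (by
      intro l
      change -e (a + 1 + b) l ∈ B
      rw [heM]
      exact neg_mem (sum_mem fun m _ => mul_mem (hKB _ (hMK l m)) (heB m)))
    (by
      change ∑ i, (-e (a + 1 + b) i) ^ 2 ∈ B.nonunits
      simp only [neg_sq]
      rw [hes (a + 1 + b) (by omega)]
      exact hlamn)
    hback0
    (fun i hi1 hi => hP _ (by omega) (by omega) (by omega))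
    (fun i hi1 hi => hlead _ (by omega) (by omega) (by omega))
    (fun i hi1 hi => hgrad _ (by omega) (by omega))
    (by
      intro i hi
      obtain ⟨m, hm⟩ : ∃ m, a + 1 + b - (i + 1) = m := ⟨_, rfl⟩
      have a1 : a + 1 + 1 + b - (i + 1) = m + 1 := by omega
      have a2 : a + 1 + 1 + b - i = m + 1 + 1 := by omega
      have a3 : a + 1 + b - i = m + 1 := by omega
      change q (a + 1 + 1 + b - (i + 1)) = fun l => q (a + 1 + 1 + b - i) l +
        s (a + 1 + b - i) * -e (a + 1 + b - i) l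
      rw [a1, a2, a3, heq (m + 1) (by omega)]
      funext l
      ring)
    (by
      intro i hi
      obtain ⟨m, hm⟩ : ∃ m, a + 1 + b - (i + 1) = m := ⟨_, rfl⟩
      have a1 : a + 1 + 1 + b - (i + 1) = m + 1 := by omega
      have a3 : a + 1 + b - i = m + 1 := by omega
      change (fun l => -e (a + 1 + b - (i + 1)) l) =
        refl (grad (Φ (a + 1 + 1 + b - (i + 1))) (q (a + 1 + 1 + b - (i + 1))))
          (fun l => -e (a + 1 + b - i) l)
      rw [a1, a3, hm]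
      have b1 : (fun l => -e (m + 1) l) = fun l => (-1) * e (m + 1) l := by
        funext l; ring
      rw [b1, refl_smul_vec, her m (by omega), refl_refl _ _ (hsq (m + 1) (by omega) (by omega))]
      funext l
      ring)
  have c1 : a + 1 + 1 + b - b = a + 1 + 1 := by omega
  have c2 : a + 1 + b - b = a + 1 := by omega
  simp only [c1, c2] at G2 G3 G4
  -- the extension to the complex numbers
  obtain ⟨C, hC, hCn⟩ := exists_C B
  have hes1 : ∑ l, e a l ^ 2 ∈ B.nonunits := by rw [hes a (by omega)]; exact hlamn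
  obtain ⟨ι, hι, hf⟩ := choose_iota C B hCn (e a) hes1
  have h2B : (2 : ℝ)⁻¹ ∈ B := hKB _ (inv_mem (ofNat_mem K 2))
  have hh : (e a 0 : ℂ) - ι * e a 1 ∉ C.nonunits :=
    (one_unit B C hC hCn h2B ι hι (e a) F4).resolve_left (not_not.2 hf)
  have hιC : ι ∈ C := by
    rw [← ValuationSubring.valuation_le_one_iff, val_iota C ι hι]
  have hcomb : ∀ v : Fin 2 → ℝ, (∀ l, v l ∈ B) → (v 0 : ℂ) + ι * v 1 ∈ C ∧
      (v 0 : ℂ) - ι * v 1 ∈ C := fun v hv =>
    ⟨add_mem ((hC _).2 (hv 0)) (mul_mem hιC ((hC _).2 (hv 1))),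
      sub_mem ((hC _).2 (hv 0)) (mul_mem hιC ((hC _).2 (hv 1)))⟩
  have hkC : ∀ x : k, algebraMap k ℂ x ∈ C := fun x => (hC _).2 (hKB _ (K.algebraMap_mem x))
  -- the length
  have hT : IsAlgebraic K (∑ i ∈ Finset.range (a + 1 + 1 + b), t i) :=
    h2 k K _ Φ q u t (by omega) hq0 (fun i => isAlgebraic_algebraMap (⟨q _ i, hqn i⟩ : K)) huni hΦ
      hqs hus
  have hTB := alg_mem B (fun x : K => hKB x x.2) _ hT
  have hTB' := alg_mem B (fun x : K => hKB x x.2) _ hT.inv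
  obtain ⟨T, hTdef⟩ : ∃ T, T = ∑ i ∈ Finset.range (a + 1 + 1 + b), t i := ⟨_, rfl⟩
  rw [← hTdef] at hTB hTB' hsum
  have hTn : T ^ 2 ∉ B.nonunits := by
    intro hcon
    rw [ValuationSubring.mem_nonunits_iff, map_pow] at hcon
    rw [← ValuationSubring.valuation_le_one_iff] at hTB'
    have h5 : B.valuation T ^ 2 * B.valuation T⁻¹ ^ 2 = 1 := by
      rw [← mul_pow, ← map_mul, mul_inv_cancel₀ hsum, map_one, one_pow]
    exact absurd h5 (mul_lt_one_of_nonneg_of_lt_one_left zero_le hcon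
      (pow_le_one₀ zero_le hTB')).ne
  -- the total sum
  obtain ⟨σ, hσ⟩ : ∃ σ : ℝ, σ = ∑ i ∈ Finset.range a, s i +
      ∑ i ∈ Finset.range b, s (a + 1 + b - i) := ⟨_, rfl⟩
  have hσB : σ ∈ B := by rw [hσ]; exact add_mem F1 G1
  have hst : s a + s (a + 1) + σ = T / lam := by
    have d1 : ∑ i ∈ Finset.range b, s (a + 1 + b - i) = ∑ i ∈ Finset.range b, s (a + 1 + 1 + i) := by
      rw [← Finset.sum_range_reflect]
      refine Finset.sum_congr rfl fun i hi => ?_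
      rw [Finset.mem_range] at hi
      have : a + 1 + b - (b - 1 - i) = a + 1 + 1 + i := by omega
      rw [this]
    have d2 : T / lam = ∑ i ∈ Finset.range (a + 1 + 1 + b), s i := by
      rw [hTdef, hs, Finset.sum_div]
    rw [d2, Finset.sum_range_add, Finset.sum_range_succ, Finset.sum_range_succ, hσ, d1]
    ring
  -- the reflection
  obtain ⟨ν, hν⟩ : ∃ ν, ν = grad (Φ (a + 1)) (q (a + 1)) := ⟨_, rfl⟩
  have hν0 : ν ≠ 0 := by rw [hν]; exact hgrad (a + 1) (by omega) (by omega)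
  have hνs : ∑ l, ν l ^ 2 ≠ 0 := sq_sum_ne _ hν0
  obtain ⟨ρ, hρ⟩ : ∃ ρ : ℝ, ρ = 2 * (∑ l, e a l * ν l) / (∑ l, ν l ^ 2) := ⟨_, rfl⟩
  have hρ0 : ρ ≠ 0 := by
    rw [hρ]
    refine div_ne_zero (mul_ne_zero two_ne_zero ?_) hνs
    have d3 : ∑ l, e a l * ν l = lam * ∑ l, u a l * ν l := by
      rw [he, Finset.mul_sum]
      exact Finset.sum_congr rfl fun l _ => by ring
    rw [d3, hν]
    exact mul_ne_zero hlam htr
  have hdiff : ∀ l, e a l - e (a + 1) l = ρ * ν l := by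
    intro l
    rw [her a (by omega), ← hν, hρ]
    unfold H450Al.refl
    ring
  have hdiffC : ∀ l, (e a l : ℂ) - e (a + 1) l = ρ * ν l := fun l => by
    rw [← Complex.ofReal_sub, hdiff l, Complex.ofReal_mul]
  have hq1 : ∀ l, (q (a + 1) l : ℂ) = q a l + s a * e a l := by
    intro l
    rw [heq a (by omega)]
    push_cast
    ring
  have hq2 : ∀ l, (q (a + 1) l : ℂ) = q (a + 1 + 1) l - s (a + 1) * e (a + 1) l := by
    intro l
    rw [heq (a + 1) (by omega)]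
    push_cast
    ring
  have hN1 : (e a 0 : ℂ) ^ 2 + (e a 1 : ℂ) ^ 2 = ((lam ^ 2 : ℝ) : ℂ) := by
    rw [← hes a (by omega), Fin.sum_univ_two]
    push_cast
    ring
  have hN2 : (e (a + 1) 0 : ℂ) ^ 2 + (e (a + 1) 1 : ℂ) ^ 2 = ((lam ^ 2 : ℝ) : ℂ) := by
    rw [← hes (a + 1) (by omega), Fin.sum_univ_two]
    push_cast
    ring
  have hPz : ∀ ι' : ℂ, ι' ^ 2 = -1 → (ν 0 : ℂ) - ι' * ν 1 ≠ 0 := by
    intro ι' hι' h0
    apply hνs
    rw [Fin.sum_univ_two]
    have h5 : ((ν 0 ^ 2 + ν 1 ^ 2 : ℝ) : ℂ) = 0 := by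
      push_cast
      linear_combination ((ν 0 : ℂ) + ι' * ν 1) * h0 + (ν 1 : ℂ) ^ 2 * hι'
    exact_mod_cast h5
  have hNT : ((lam ^ 2 : ℝ) : ℂ) * ((s a : ℂ) + (s (a + 1) : ℂ) + (σ : ℂ)) ^ 2 = ((T ^ 2 : ℝ) : ℂ) := by
    have h5 : lam ^ 2 * (s a + s (a + 1) + σ) ^ 2 = T ^ 2 := by
      rw [hst]
      field_simp
    rw [← h5]
    push_cast
    ring
  obtain ⟨z1, z2⟩ := hcomb (q a) F2
  obtain ⟨z3, z4⟩ := hcomb (q (a + 1 + 1)) G2
  obtain ⟨z5, z6⟩ := hcomb (e a) F3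
  obtain ⟨z7, z8⟩ := hcomb (fun l => -e (a + 1) l) G3
  refine h4 k C hkC ((q a 0 : ℂ) + ι * q a 1) ((q a 0 : ℂ) - ι * q a 1)
    ((q (a + 1 + 1) 0 : ℂ) + ι * q (a + 1 + 1) 1) ((q (a + 1 + 1) 0 : ℂ) - ι * q (a + 1 + 1) 1)
    ((e a 0 : ℂ) + ι * e a 1) ((e a 0 : ℂ) - ι * e a 1)
    (((-e (a + 1) 0 : ℝ) : ℂ) + ι * ((-e (a + 1) 1 : ℝ) : ℂ))
    (((-e (a + 1) 0 : ℝ) : ℂ) - ι * ((-e (a + 1) 1 : ℝ) : ℂ))
    (σ : ℂ) (s a : ℂ) (s (a + 1) : ℂ)
    ((q (a + 1) 0 : ℂ) + ι * q (a + 1) 1) ((q (a + 1) 0 : ℂ) - ι * q (a + 1) 1)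
    ((ν 0 : ℂ) - ι * ν 1) ((ν 0 : ℂ) + ι * ν 1) ((lam ^ 2 : ℝ) : ℂ)
    z1 z2 z3 z4 hf z6 hh z7 z8
    (one_unit B C hC hCn h2B ι hι (fun l => -e (a + 1) l) G4) ((hC _).2 hσB)
    ?_ ?_ ?_ ?_ ?_ ?_ ?_ ?_ ?_ ?_ (hPz ι hι) ?_ (F6 C ι hC hι hf)
  · linear_combination hN1 - (e a 1 : ℂ) ^ 2 * hι
  · have h5 := hN2
    push_cast at h5 ⊢
    linear_combination h5 - (e (a + 1) 1 : ℂ) ^ 2 * hι
  · linear_combination hq1 0 + ι * hq1 1
  · linear_combination hq1 0 - ι * hq1 1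
  · push_cast
    linear_combination hq2 0 + ι * hq2 1
  · push_cast
    linear_combination hq2 0 - ι * hq2 1
  · rw [hNT, hC]
    exact pow_mem hTB 2
  · rw [hNT, hCn]
    exact hTn
  · push_cast
    linear_combination (hdiffC 0 + ι * hdiffC 1) * ((ν 0 : ℂ) - ι * ν 1) -
      (hdiffC 0 - ι * hdiffC 1) * ((ν 0 : ℂ) + ι * ν 1)
  · have h5 : (e a 0 : ℂ) - ι * e a 1 + (((-e (a + 1) 0 : ℝ) : ℂ) - ι * ((-e (a + 1) 1 : ℝ) : ℂ)) =
        ρ * ((ν 0 : ℂ) - ι * ν 1) := by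
      push_cast
      linear_combination hdiffC 0 - ι * hdiffC 1
    rw [h5]
    exact mul_ne_zero (by exact_mod_cast hρ0) (hPz ι hι)
  · intro hw
    obtain ⟨p, hp⟩ : ∃ p : Fin 2 → ℂ, p = fun l => (q (a + 1) l : ℂ) := ⟨_, rfl⟩
    have hev : ∀ Q : MvPolynomial (Fin 2) k, aeval p Q = ((aeval (q (a + 1)) Q : ℝ) : ℂ) := by
      intro Q
      have := MvPolynomial.aeval_algebraMap_apply (B := ℂ) (q (a + 1)) Q
      rw [hp]
      exact this
    have hΦ0 : Φ (a + 1) ≠ 0 := by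
      intro h0
      apply hν0
      rw [hν, h0]
      funext l
      unfold grad
      simp
    have hΦ1 : aeval p (Φ (a + 1)) = 0 := by
      rw [hev, hΦ (a + 1) (by omega) (by omega), Complex.ofReal_zero]
    have hmem : ∀ S : Set ℂ, (∀ l, p l ∈ cl k S) → p 0 + ι * p 1 ∈ cl k S ∧
        p 0 - ι * p 1 ∈ cl k S := by
      intro S hS
      have i1 : ι ∈ clAlg k S := iota_mem_cl ι hι S
      have i2 : p 0 ∈ clAlg k S := hS 0
      have i3 : p 1 ∈ clAlg k S := hS 1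
      exact ⟨(add_mem i2 (mul_mem i1 i3) : _ ∈ clAlg k S), (sub_mem i2 (mul_mem i1 i3) : _ ∈ clAlg k S)⟩
    have hpw : (q (a + 1) 0 : ℂ) - ι * q (a + 1) 1 = p 0 - ι * p 1 := by rw [hp]
    have hpz : (q (a + 1) 0 : ℂ) + ι * q (a + 1) 1 = p 0 + ι * p 1 := by rw [hp]
    rw [hpw] at hw
    rw [hpw, hpz]
    have hw0 : p 0 - ι * p 1 ∉ cl k (∅ : Set ℂ) := by
      intro h0
      apply hw
      rw [mem_cl, Algebra.adjoin_empty] at h0
      exact alg_mem C hkC _ (Subalgebra.isAlgebraic_of_isAlgebraic_bot h0)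
    have hr := mem_cl_of_rank p (Φ (a + 1)) hΦ0 hΦ1 (p 0 - ι * p 1)
      (hmem _ fun l => subset_cl k _ (mem_range_self l)).2 hw0
    have hpl : ∀ l, p l ∈ cl k {p 0 - ι * p 1} := fun l => hr (mem_range_self l)
    refine ⟨(hmem _ hpl).1, ?_⟩
    have hνl : ∀ l, (ν l : ℂ) ∈ clAlg k {p 0 - ι * p 1} := by
      intro l
      have h5 : (ν l : ℂ) = aeval p (pderiv l (Φ (a + 1))) := by
        rw [hev, hν]
        rfl
      rw [h5]
      exact aeval_mem_cl k hpl _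
    have i1 : ι ∈ clAlg k {p 0 - ι * p 1} := iota_mem_cl ι hι _
    have j1 : (ν 0 : ℂ) + ι * ν 1 ∈ clAlg k {p 0 - ι * p 1} := add_mem (hνl 0) (mul_mem i1 (hνl 1))
    have j2 : (ν 0 : ℂ) - ι * ν 1 ∈ clAlg k {p 0 - ι * p 1} := sub_mem (hνl 0) (mul_mem i1 (hνl 1))
    have j3 : ((ν 0 : ℂ) - ι * ν 1)⁻¹ ∈ clAlg k {p 0 - ι * p 1} := inv_mem_cl k j2
    rw [div_eq_mul_inv]
    exact (mul_mem j1 j3 : _ ∈ clAlg k {p 0 - ι * p 1})

end Pool.Agent.Y319.TB
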